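import Pool.Agent.HAR.Stmts

/-!
Row UQP of the table `har` (statement by helper75): a set is rarely not unique.
-/

namespace Pool.Agent.HAR.H17

open Finset Filter Topology Pool.Agent.HAR

/-- the union bound with different weights -/
theorem union_bound (prb : PrbStmt) {Ω X : Type} [Finite Ω] (S : Finset X) (E : X → Ω → Prop) :
    pr (fun ω => ∃ a ∈ S, E a ω) ≤ ∑ a ∈ S, pr (E a) := by
  classical
  induction S using Finset.induction_on with
  | empty => simp [pr]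
  | insert b S hb ih =>
    rw [Finset.sum_insert hb]
    have h1 : pr (fun ω => ∃ a ∈ insert b S, E a ω) ≤
        pr (fun ω => E b ω ∨ ∃ a ∈ S, E a ω) := by
      refine prb.1 Ω _ _ fun ω hω => ?_
      obtain ⟨a, ha, hE⟩ := hω
      rcases Finset.mem_insert.1 ha with h | h
      · left; rw [← h]; exact hE
      · exact Or.inr ⟨a, h, hE⟩
    have h2 := prb.2.1 Ω (E b) (fun ω => ∃ a ∈ S, E a ω)
    linarith

/-- exponentials are large -/
theorem large : ∃ i0 : ℕ, ∀ i : ℕ, i0 ≤ i → 60 ≤ i ∧ 400 * (i : ℝ) ^ 2 ≤ (2 : ℝ) ^ ((i : ℝ) / 42) ∧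
    404 * (i : ℝ) ≤ (2 : ℝ) ^ ((i : ℝ) / 80) := by
  have key : ∀ (k : ℕ) (C m : ℝ), 0 < C → 0 < m →
      ∀ᶠ i : ℕ in atTop, C * (i : ℝ) ^ k ≤ (2 : ℝ) ^ ((i : ℝ) / m) := by
    intro k C m hC hm
    have hr : 1 < (2 : ℝ) ^ (1 / m) := Real.one_lt_rpow (by norm_num) (by positivity)
    have h1 := tendsto_pow_const_div_const_pow_of_one_lt k hr
    have h2 : ∀ᶠ i : ℕ in atTop, (i : ℝ) ^ k / ((2 : ℝ) ^ (1 / m)) ^ i < 1 / C :=
      h1.eventually_lt_const (by positivity)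
    filter_upwards [h2] with i hi
    have h3 : ((2 : ℝ) ^ (1 / m)) ^ i = (2 : ℝ) ^ ((i : ℝ) / m) := by
      rw [← Real.rpow_natCast, ← Real.rpow_mul (by norm_num)]
      congr 1
      ring
    rw [h3] at hi
    have h4 : 0 < (2 : ℝ) ^ ((i : ℝ) / m) := by positivity
    rw [div_lt_div_iff₀ h4 hC] at hi
    linarith
  have h1 := key 2 400 42 (by norm_num) (by norm_num)
  have h2 := key 1 404 80 (by norm_num) (by norm_num)
  obtain ⟨i0, h0⟩ := eventually_atTop.1 ((eventually_ge_atTop 60).and (h1.and h2))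
  refine ⟨i0, fun i hi => ?_⟩
  obtain ⟨ha, hb, hc⟩ := h0 i hi
  refine ⟨ha, hb, ?_⟩
  simpa using hc

/-- the numerical part -/
theorem num {i n : ℕ} (h60 : 60 ≤ i) (h1 : 400 * (i : ℝ) ^ 2 ≤ (2 : ℝ) ^ ((i : ℝ) / 42))
    (h2 : 404 * (i : ℝ) ≤ (2 : ℝ) ^ ((i : ℝ) / 80)) (hn : n ≤ 100 * i) :
    (((n : ℝ) * (2 : ℝ) ^ (-((i : ℝ) / 6)) + 1) ^ i - 1) +
      ((n : ℝ) + 1) ^ i * (2 : ℝ) ^ (-((i : ℝ) ^ 2 / 80)) ≤ (2 : ℝ) ^ (-((i : ℝ) / 7)) := by
  have hi : (60 : ℝ) ≤ i := by exact_mod_cast h60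
  have hn' : (n : ℝ) ≤ 100 * i := by exact_mod_cast hn
  have hn0 : (0 : ℝ) ≤ n := Nat.cast_nonneg n
  obtain ⟨z, hz⟩ : ∃ z : ℝ, z = (2 : ℝ) ^ (-((i : ℝ) / 7)) := ⟨_, rfl⟩
  have hz0 : 0 < z := by rw [hz]; positivity
  have hz1 : z ≤ 1 := by
    rw [hz]
    refine Real.rpow_le_one_of_one_le_of_nonpos (by norm_num) ?_
    have : 0 ≤ (i : ℝ) / 7 := by positivity
    linarith
  -- first part
  obtain ⟨x, hx⟩ : ∃ x : ℝ, x = (n : ℝ) * (2 : ℝ) ^ (-((i : ℝ) / 6)) := ⟨_, rfl⟩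
  have hx0 : 0 ≤ x := by rw [hx]; positivity
  have e6 : (2 : ℝ) ^ (-((i : ℝ) / 6)) = (2 : ℝ) ^ (-((i : ℝ) / 42)) * z := by
    rw [hz, ← Real.rpow_add (by norm_num)]
    congr 1
    ring
  have h42 : 400 * (i : ℝ) ^ 2 * (2 : ℝ) ^ (-((i : ℝ) / 42)) ≤ 1 := by
    have h3 : 0 < (2 : ℝ) ^ ((i : ℝ) / 42) := by positivity
    rw [Real.rpow_neg (by norm_num), ← div_eq_mul_inv, div_le_one h3]
    exact h1
  have hix : (i : ℝ) * x ≤ z / 4 := by
    have h3 : (i : ℝ) * x ≤ (i : ℝ) * ((100 * i) * ((2 : ℝ) ^ (-((i : ℝ) / 42)) * z)) := by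
      rw [hx, e6]
      refine mul_le_mul_of_nonneg_left ?_ (by positivity)
      exact mul_le_mul_of_nonneg_right hn' (by positivity)
    have h4 := mul_le_mul_of_nonneg_right h42 hz0.le
    nlinarith
  have p1 : ((n : ℝ) * (2 : ℝ) ^ (-((i : ℝ) / 6)) + 1) ^ i - 1 ≤ z / 2 := by
    rw [← hx]
    have h3 : (x + 1) ^ i ≤ Real.exp ((i : ℝ) * x) := by
      rw [Real.exp_nat_mul]
      exact pow_le_pow_left₀ (by positivity) (Real.add_one_le_exp x) i
    have h4 : |Real.exp ((i : ℝ) * x) - 1| ≤ 2 * |(i : ℝ) * x| := by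
      refine Real.abs_exp_sub_one_le ?_
      rw [abs_of_nonneg (by positivity)]
      linarith
    rw [abs_of_nonneg (show 0 ≤ (i : ℝ) * x by positivity)] at h4
    have h5 := le_abs_self (Real.exp ((i : ℝ) * x) - 1)
    linarith
  -- second part
  have p2 : ((n : ℝ) + 1) ^ i * (2 : ℝ) ^ (-((i : ℝ) ^ 2 / 80)) ≤ z / 2 := by
    have e80 : (2 : ℝ) ^ (-((i : ℝ) ^ 2 / 80)) = ((2 : ℝ) ^ (-((i : ℝ) / 80))) ^ i := by
      rw [← Real.rpow_natCast ((2 : ℝ) ^ (-((i : ℝ) / 80))) i, ← Real.rpow_mul (by norm_num)]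
      congr 1
      ring
    rw [e80, ← mul_pow]
    have h3 : ((n : ℝ) + 1) * (2 : ℝ) ^ (-((i : ℝ) / 80)) ≤ 1 / 4 := by
      have h4 : 0 < (2 : ℝ) ^ ((i : ℝ) / 80) := by positivity
      rw [Real.rpow_neg (by norm_num), ← div_eq_mul_inv, div_le_iff₀ h4]
      nlinarith
    have h5 : (((n : ℝ) + 1) * (2 : ℝ) ^ (-((i : ℝ) / 80))) ^ i ≤ (1 / 4) ^ i :=
      pow_le_pow_left₀ (by positivity) h3 i
    refine h5.trans ?_
    have h6 : ((1 : ℝ) / 4) ^ i = (2 : ℝ) ^ (-(2 * (i : ℝ))) := by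
      rw [Real.rpow_neg (by norm_num), Real.rpow_mul (by norm_num), Real.rpow_natCast, one_div,
        inv_pow]
      norm_num
    have h7 : z / 2 = (2 : ℝ) ^ (-1 - (i : ℝ) / 7) := by
      rw [hz, sub_eq_add_neg, Real.rpow_add (by norm_num), Real.rpow_neg_one]
      ring
    rw [h6, h7]
    refine Real.rpow_le_rpow_of_exponent_le (by norm_num) ?_
    linarith
  rw [← hz]
  linarith

/-- extension by the identity -/
def ex {n : ℕ} (D : Finset (Fin n)) (a : D → Fin n) (x : Fin n) : Fin n :=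
  if h : x ∈ D then a ⟨x, h⟩ else x

/-- the event for a set `D` of moved points -/
def ED {n : ℕ} (I D : Finset (Fin n)) (G : SimpleGraph (Fin n)) : Prop :=
  ∃ a : D → Fin n, (I.filter fun x => ex D a x ≠ x) = D ∧ IsE G G I (ex D a)

theorem not_uq {n : ℕ} (I : Finset (Fin n)) (G : SimpleGraph (Fin n)) (h : ¬ Uq G I) :
    ∃ D ∈ I.powerset.erase ∅, ED I D G := by
  unfold Uq at h
  push Not at h
  obtain ⟨f, hf, x, hx, hfx⟩ := h
  have hxD : x ∈ I.filter fun x => f x ≠ x := Finset.mem_filter.2 ⟨hx, hfx⟩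
  have hag : ∀ y ∈ I, ex (I.filter fun x => f x ≠ x) (fun y => f y) y = f y := by
    intro y hy
    unfold ex
    split_ifs with h1
    · rfl
    · by_contra h2
      exact h1 (Finset.mem_filter.2 ⟨hy, fun h3 => h2 h3.symm⟩)
  refine ⟨I.filter fun x => f x ≠ x, ?_, fun y => f y, ?_, ?_, ?_⟩
  · rw [Finset.mem_erase, Finset.mem_powerset]
    exact ⟨(Finset.nonempty_iff_ne_empty.1 ⟨x, hxD⟩), Finset.filter_subset _ _⟩
  · refine Finset.filter_congr fun y hy => ?_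
    rw [hag y hy]
  · intro y hy z hz hyz
    rw [hag y hy, hag z hz] at hyz
    exact hf.1 hy hz hyz
  · intro y hy z hz
    rw [hag y hy, hag z hz]
    exact hf.2 y hy z hz

theorem uqp (pha : PhaStmt) (phb : PhbStmt) (prb : PrbStmt) : UqpStmt := by
  obtain ⟨i0, h0⟩ := large
  refine ⟨i0, fun n I hI hn => ?_⟩
  obtain ⟨h60, hl1, hl2⟩ := h0 I.card hI
  obtain ⟨i, hi⟩ : ∃ i, i = I.card := ⟨_, rfl⟩
  -- the bound for one `D`
  have hD : ∀ D ∈ I.powerset.erase ∅, pr (ED I D) ≤ ((n : ℝ) * (2 : ℝ) ^ (-((i : ℝ) / 6))) ^ D.card +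
      (n : ℝ) ^ D.card * (2 : ℝ) ^ (-((i : ℝ) ^ 2 / 80)) := by
    intro D hD
    have h1 : pr (ED I D) ≤ Nat.card (D → Fin n) *
        (((2 : ℝ) ^ (-((i : ℝ) / 6))) ^ D.card + (2 : ℝ) ^ (-((i : ℝ) ^ 2 / 80))) := by
      refine prb.2.2.1 (SimpleGraph (Fin n)) (D → Fin n) (fun a G =>
        (I.filter fun x => ex D a x ≠ x) = D ∧ IsE G G I (ex D a)) _ fun a => ?_
      by_cases ha : (I.filter fun x => ex D a x ≠ x) = D ∧ Set.InjOn (ex D a) I
      · have h2 : pr (fun G => (I.filter fun x => ex D a x ≠ x) = D ∧ IsE G G I (ex D a)) ≤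
            pr (fun G : SimpleGraph (Fin n) => IsE G G I (ex D a)) :=
          prb.1 _ _ _ fun G hG => hG.2
        refine h2.trans ?_
        by_cases h3 : 2 * D.card ≤ I.card
        · have h4 := pha n I (ex D a) ha.2 (by rw [ha.1]; exact h3)
          rw [ha.1] at h4
          have h5 : (2 : ℝ) ^ (-(((D.card * I.card : ℕ) : ℝ) / 6)) =
              ((2 : ℝ) ^ (-((i : ℝ) / 6))) ^ D.card := by
            rw [← Real.rpow_natCast, ← Real.rpow_mul (by norm_num), hi]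
            congr 1
            push_cast
            ring
          rw [h5] at h4
          have h6 : 0 ≤ (2 : ℝ) ^ (-((i : ℝ) ^ 2 / 80)) := by positivity
          linarith
        · have h4 := phb n I (ex D a) ha.2 (by rw [ha.1]; omega) h60
          rw [← hi] at h4
          have h6 : 0 ≤ ((2 : ℝ) ^ (-((i : ℝ) / 6))) ^ D.card := by positivity
          linarith
      · have h2 : pr (fun G => (I.filter fun x => ex D a x ≠ x) = D ∧ IsE G G I (ex D a)) ≤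
            pr (fun _ : SimpleGraph (Fin n) => False) :=
          prb.1 _ _ _ fun G hG => ha ⟨hG.1, hG.2.1⟩
        have h3 : pr (fun _ : SimpleGraph (Fin n) => False) = 0 := by simp [pr]
        rw [h3] at h2
        refine h2.trans ?_
        positivity
    refine h1.trans (le_of_eq ?_)
    have h2 : Nat.card (D → Fin n) = n ^ D.card := by
      rw [Nat.card_eq_fintype_card]
      simp
    rw [h2, mul_pow]
    push_cast
    ring
  have h1 : pr (fun G : SimpleGraph (Fin n) => ¬ Uq G I) ≤ ∑ D ∈ I.powerset.erase ∅, pr (ED I D) :=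
    (prb.1 _ _ _ fun G hG => not_uq I G hG).trans (union_bound prb _ _)
  refine h1.trans ((Finset.sum_le_sum hD).trans ?_)
  have hsum : ∀ x : ℝ, ∑ D ∈ I.powerset.erase ∅, x ^ D.card = (x + 1) ^ i - 1 := by
    intro x
    have h2 := Finset.sum_pow_mul_eq_add_pow x 1 I
    simp only [one_pow, mul_one] at h2
    rw [hi, ← h2, ← Finset.sum_erase_add I.powerset _ (Finset.empty_mem_powerset I)]
    simp
  rw [Finset.sum_add_distrib, ← Finset.sum_mul, hsum, hsum, hi]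
  refine le_trans ?_ (num h60 hl1 hl2 hn)
  have h3 : 0 ≤ (2 : ℝ) ^ (-((I.card : ℝ) ^ 2 / 80)) := by positivity
  have h4 : (((n : ℝ) + 1) ^ I.card - 1) * (2 : ℝ) ^ (-((I.card : ℝ) ^ 2 / 80)) ≤
      ((n : ℝ) + 1) ^ I.card * (2 : ℝ) ^ (-((I.card : ℝ) ^ 2 / 80)) :=
    mul_le_mul_of_nonneg_right (by linarith) h3
  linarith

end Pool.Agent.HAR.H17
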